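import Mathlib
import Pool.Agent.H16.Chap4

set_option autoImplicit false

namespace Pool.Agent.Results.MP_e449c6_nt.ThreeModFour

theorem result (p : ℕ) [Fact p.Prime] (h5 : 5 ≤ p) (h : p % 4 = 3) (R : Type) [CommRing R]
    (x y z w : R) :
    Matrix.det (Matrix.of fun j k : Fin ((p - 3) / 2) =>
      x + (legendreSym p (((j : ℕ) : ℤ) - ((k : ℕ) : ℤ)) : R) + (legendreSym p ((j : ℕ) : ℤ) : R) * y +
        (legendreSym p ((k : ℕ) : ℤ) : R) * z + (legendreSym p (((j : ℕ) : ℤ) * ((k : ℕ) : ℤ)) : R) * w) =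
      w * x + (1 + y) * (1 - z) := by
  obtain ⟨m, hm⟩ : ∃ m, (p - 3) / 2 = m + 1 := ⟨(p - 5) / 2, by omega⟩
  rw [hm]
  exact Pool.Agent.H16.Chap.thmB h (m := m) (by omega) x y z w

end Pool.Agent.Results.MP_e449c6_nt.ThreeModFour
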